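import Pool.Agent.W787.QC.Defs

/-!
Project QC (helper787), MP_ab3195_an: the bilaplacian is the iterated Laplacian.
-/

set_option autoImplicit false

open MeasureTheory Set Metric Filter Topology Real
open scoped ContDiff

noncomputable section

namespace Pool.Agent.W790.QC

open Pool.Agent.W787.QC

/-- directional derivative -/
def D (v : E) (f : E → ℝ) (x : E) : ℝ := fderiv ℝ f x v

theorem D_smooth (v : E) {f : E → ℝ} (hf : ContDiff ℝ ∞ f) : ContDiff ℝ ∞ (D v f) := by
  have h1 : ContDiff ℝ ∞ (fderiv ℝ f) := hf.fderiv_right (by norm_num)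
  exact h1.clm_apply contDiff_const

theorem diffAt {f : E → ℝ} (hf : ContDiff ℝ ∞ f) (x : E) : DifferentiableAt ℝ f x :=
  (hf.differentiable (by norm_num)) x

theorem D_add (v : E) {f g : E → ℝ} (hf : ContDiff ℝ ∞ f) (hg : ContDiff ℝ ∞ g) :
    D v (fun y => f y + g y) = fun x => D v f x + D v g x := by
  funext x
  unfold D
  rw [fderiv_fun_add (diffAt hf x) (diffAt hg x)]
  rfl

theorem D_const_mul (v : E) (c : ℝ) {f : E → ℝ} (hf : ContDiff ℝ ∞ f) :
    D v (fun y => c * f y) = fun x => c * D v f x := by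
  funext x
  unfold D
  rw [fderiv_const_mul (diffAt hf x)]
  rfl

theorem D_sum (v : E) (f : Fin 4 → E → ℝ) (hf : ∀ i, ContDiff ℝ ∞ (f i)) :
    D v (fun y => ∑ i, f i y) = fun x => ∑ i, D v (f i) x := by
  funext x
  unfold D
  rw [fderiv_fun_sum fun i _ => diffAt (hf i) x]
  simp

/-- basis vector -/
def e (i : Fin 4) : E := EuclideanSpace.single i (1 : ℝ)

theorem Lap_eq (f : E → ℝ) : Lap f = fun x => ∑ i, D (e i) (D (e i) f) x := rfl

theorem DD_smooth (v : E) {f : E → ℝ} (hf : ContDiff ℝ ∞ f) : ContDiff ℝ ∞ (D v (D v f)) :=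
  D_smooth v (D_smooth v hf)

theorem Lap_smooth {f : E → ℝ} (hf : ContDiff ℝ ∞ f) : ContDiff ℝ ∞ (Lap f) := by
  rw [Lap_eq]
  exact ContDiff.sum fun i _ => DD_smooth (e i) hf

theorem iter_succ {n : ℕ} {u : E → ℝ} (hu : ContDiff ℝ ∞ u) (m : Fin (n + 1) → E) (x : E) :
    iteratedFDeriv ℝ (n + 1) u x m =
      D (m 0) (fun y => iteratedFDeriv ℝ n u y (Fin.tail m)) x := by
  have h1 : DifferentiableAt ℝ (iteratedFDeriv ℝ n u) x := by
    have := hu.differentiable_iteratedFDeriv (m := n) (by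
      exact_mod_cast (WithTop.coe_lt_coe.2 (ENat.natCast_lt_top n)))
    exact this x
  rw [iteratedFDeriv_succ_apply_left]
  unfold D
  rw [fderiv_continuousMultilinear_apply_const_apply h1]

theorem iter4 {u : E → ℝ} (hu : ContDiff ℝ ∞ u) (a b : E) (x : E) :
    iteratedFDeriv ℝ 4 u x ![a, a, b, b] = D a (D a (D b (D b u))) x := by
  rw [iter_succ hu]
  show D a (fun y => iteratedFDeriv ℝ 3 u y ![a, b, b]) x = _
  congr 1
  funext y
  rw [iter_succ hu]
  show D a (fun y => iteratedFDeriv ℝ 2 u y ![b, b]) y = _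
  congr 1
  funext z
  rw [iter_succ hu]
  show D b (fun y => iteratedFDeriv ℝ 1 u y ![b]) z = _
  congr 1
  funext w
  rw [iter_succ hu]
  show D b (fun y => iteratedFDeriv ℝ 0 u y ![]) w = _
  congr 1

theorem bil_eq {u : E → ℝ} (hu : ContDiff ℝ ∞ u) (x : E) : bil u x = Lap (Lap u) x := by
  have h1 : ∀ i : Fin 4, D (e i) (D (e i) (Lap u)) x =
      ∑ j, D (e i) (D (e i) (D (e j) (D (e j) u))) x := by
    intro i
    rw [Lap_eq, D_sum _ _ fun j => DD_smooth (e j) hu,
      D_sum _ _ fun j => D_smooth (e i) (DD_smooth (e j) hu)]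
  rw [Lap_eq (Lap u)]
  simp only [h1]
  unfold bil
  refine Finset.sum_congr rfl fun i _ => Finset.sum_congr rfl fun j _ => ?_
  exact iter4 hu (e i) (e j) x

theorem Lap_add {f g : E → ℝ} (hf : ContDiff ℝ ∞ f) (hg : ContDiff ℝ ∞ g) :
    Lap (fun y => f y + g y) = fun x => Lap f x + Lap g x := by
  funext x
  simp only [Lap_eq]
  rw [← Finset.sum_add_distrib]
  refine Finset.sum_congr rfl fun i _ => ?_
  rw [D_add _ hf hg, D_add _ (D_smooth _ hf) (D_smooth _ hg)]

theorem Lap_const_mul (c : ℝ) {f : E → ℝ} (hf : ContDiff ℝ ∞ f) :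
    Lap (fun y => c * f y) = fun x => c * Lap f x := by
  funext x
  simp only [Lap_eq]
  rw [Finset.mul_sum]
  refine Finset.sum_congr rfl fun i _ => ?_
  rw [D_const_mul _ c hf, D_const_mul _ c (D_smooth _ hf)]

theorem bl : S_BL := by
  refine ⟨fun u hu x => bil_eq hu x, fun u hu => Lap_smooth hu, fun u hu => ?_,
    fun u v hu hv x => ?_, fun c u hu x => ?_⟩
  · have : bil u = Lap (Lap u) := funext fun x => bil_eq hu x
    rw [this]
    exact Lap_smooth (Lap_smooth hu)
  · rw [bil_eq (hu.add hv), bil_eq hu, bil_eq hv, Lap_add hu hv,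
      Lap_add (Lap_smooth hu) (Lap_smooth hv)]
  · rw [bil_eq (contDiff_const.mul hu), bil_eq hu, Lap_const_mul c hu,
      Lap_const_mul c (Lap_smooth hu)]

end Pool.Agent.W790.QC
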